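import Mathlib

/-!
The Campana-Peternell conjecture and abundance for fibre spaces over towers.

Let abundance, in the form `κ = κ_σ`, hold for the klt pairs of dimension `≤ m` with pseudo-effective
log canonical class, and for the klt pairs of dimension `≤ m'` with `κ ≥ 0`.  This is known for
`m = m' = 3`.  Let `X` be a smooth variety with pseudo-effective canonical class.  We prove
`κ(X) = κ_σ(X)` in the following cases.

* `X ⇢ W` is a fibration over a tower `W` whose very general fibre `E` satisfies `κ(E) = κ_σ(E)`.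
* `X` is covered by subvarieties `Z` with `κ(Z) = κ_σ(Z)` and `κ(Z) + codim Z ≤ m`.  So if `X` of
  dimension `m + 1` has not this property, then all proper subvarieties of positive dimension through
  very general points of `X` are of general type.
* `π₁(X)` has a linear representation such that `κ(F) = κ_σ(F)` for a very general fibre `F` of the
  Shafarevich map.

The class `Theory.Tower m m'` is the smallest class of smooth varieties which contains the blocks and
is closed under finite étale quotients and under extensions: it contains `X` if it contains the base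
and a very general fibre of a fibration of `X`.  The blocks (`Theory.Block`) contain

* the varieties of dimension `≤ m` which are not uniruled,
* the varieties with `κ ≥ 0` and `dim - κ ≤ m'`, for instance those of general type,
* the varieties of maximal Albanese dimension, and those with `κ ≥ 0` whose Iitaka fibration has
  fibres birational to abelian varieties.

So the Campana-Peternell conjecture holds for `K_X ~ A + B` if `X`, or a very general fibre of the
Iitaka fibration of `A`, is as in one of the three cases above.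

The published theorems used are fields of the structures below.

Conventions.  Varieties are projective over `ℂ`.  Smooth varieties which are isomorphic as schemes
(that is, conjugate under an automorphism of `ℂ`) have the same invariants, and are identified in the
relations `Map`, `Cov`, `Et`, `Lin` below; a very general fibre is isomorphic, as a scheme, to the
geometric generic fibre, for an isomorphism of `ℂ` with an algebraic closure of the function field
of the base.
-/

noncomputable section

namespace Pool.TWR.Old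

/-- Projective klt pairs and their `ℚ`-divisors. -/
structure Pairs where
  /-- The projective klt pairs `(X, Δ)` over `ℂ`; the letter `X` stands for the pair. -/
  Pair : Type
  /-- `X` is smooth and `Δ = 0`. -/
  smooth : Pair → Prop
  /-- The dimension of `X`. -/
  dim : Pair → ℕ
  /-- The `ℚ`-Cartier `ℚ`-divisors on `X` modulo `ℚ`-linear equivalence. -/
  Div : Pair → Type
  [grp : ∀ X, AddCommGroup (Div X)]
  [mod : ∀ X, Module ℚ (Div X)]
  /-- The class of `K_X + Δ`. -/
  K : ∀ X, Div X
  /-- The classes of the effective divisors. -/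
  eff : ∀ X, Set (Div X)
  /-- The pseudo-effective classes. -/
  psef : ∀ X, Set (Div X)
  /-- The Iitaka dimension; `⊥` is `-∞`. -/
  kod : ∀ {X}, Div X → WithBot ℕ
  /-- The numerical dimension `κ_σ` of Nakayama. -/
  nu : ∀ {X}, Div X → WithBot ℕ
  kod_nonneg : ∀ X (D : Div X), 0 ≤ kod D ↔ D ∈ eff X
  kod_zero : ∀ X, kod (0 : Div X) = 0
  kod_smul : ∀ X (c : ℚ) (D : Div X), 0 < c → kod (c • D) = kod D
  kod_le_nu : ∀ X (D : Div X), kod D ≤ nu D
  nu_le_dim : ∀ X (D : Div X), nu D ≤ dim X
  nu_mono : ∀ X (D D' : Div X), D' - D ∈ psef X → nu D ≤ nu D'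
  psef_zero : ∀ X, (0 : Div X) ∈ psef X
  psef_smul : ∀ X (c : ℚ) (D : Div X), 0 < c → D ∈ psef X → c • D ∈ psef X
  psef_add : ∀ X (D D' : Div X), D ∈ psef X → D' ∈ eff X → D + D' ∈ psef X
  /-- The sum of a big and a pseudo-effective class is big. -/
  big : ∀ X (D D' : Div X), kod D = dim X → D' ∈ psef X → kod (D + D') = dim X
  /-- Abundance in dimension `≤ 3` (Kawamata; Miyaoka; Keel, Matsuki, McKernan). -/
  abundance_three : ∀ X, dim X ≤ 3 → K X ∈ psef X → kod (K X) = nu (K X)

attribute [instance] Pairs.grp Pairs.mod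

/-- Fibrations of smooth varieties. -/
structure Fibrations extends Pairs where
  /-- The fibrations `X → S`, `X` a smooth variety, `S` a variety with a chosen ample `ℚ`-divisor. -/
  Fib : Type
  /-- The variety `X`. -/
  tot : Fib → Pair
  /-- A very general fibre; it is smooth. -/
  gen : Fib → Pair
  /-- The dimension of `S`. -/
  base : Fib → ℕ
  /-- The inverse image of the ample `ℚ`-divisor. -/
  H : ∀ φ, Div (tot φ)
  H_eff : ∀ φ, H φ ∈ eff (tot φ)
  /-- `S` has maximal Albanese dimension. -/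
  alb : Fib → Prop
  dim_gen : ∀ φ, dim (gen φ) + base φ = dim (tot φ)
  psef_gen : ∀ φ, K (tot φ) ∈ psef (tot φ) → K (gen φ) ∈ psef (gen φ)
  eff_gen : ∀ φ, K (tot φ) ∈ eff (tot φ) → K (gen φ) ∈ eff (gen φ)
  /-- If `κ = κ_σ` for a very general fibre, then this has a good minimal model (Gongyo, Lehmann), hence
  `X` has a good minimal model `X'` over `S` (Lai; Birkar; Hacon, Xu).  By the canonical bundle formula
  (Ambro; Fujino, Mori) its canonical model `C` over `S` carries a klt pair whose log canonical class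
  `K_C` is ample over `S`, and `K_{X'}` is the inverse image of `K_C`; `B` is the inverse image of the
  divisor on `S`. -/
  canonical : ∀ φ, K (tot φ) ∈ psef (tot φ) → kod (K (gen φ)) = nu (K (gen φ)) →
    ∃ (C : Pair) (B : Div C) (c : ℚ), K C ∈ psef C ∧
      (dim C : WithBot ℕ) = kod (K (gen φ)) + base φ ∧ kod (K C) = kod (K (tot φ)) ∧
      nu (K C) = nu (K (tot φ)) ∧ 0 < c ∧ kod (K C + c • B) = dim C ∧
      (K (tot φ) - H φ ∈ psef (tot φ) → K C - B ∈ psef C)
  /-- If `S` has maximal Albanese dimension and `K_X` is abundant over `S`, then it is abundant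
  (Fujino; Hu). -/
  hu : ∀ φ, alb φ → K (tot φ) ∈ psef (tot φ) → kod (K (gen φ)) = nu (K (gen φ)) →
    kod (K (tot φ)) = nu (K (tot φ))
  /-- `Iit A φ`, for a divisor `A` on a smooth variety `X`: the fibration `φ` is the Iitaka fibration
  `X' → S` of `A` on a smooth blowing up `X' → X`. -/
  Iit : ∀ {X}, Div X → Fib → Prop
  iit_ex : ∀ X (A : Div X), smooth X → A ∈ eff X → ∃ φ, Iit A φ
  /-- The inverse image of `A` minus that of a small ample divisor on the base is `ℚ`-linearly
  equivalent to an effective divisor (Iitaka). -/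
  iit : ∀ X (A : Div X) φ, Iit A φ → kod A = base φ ∧ dim (tot φ) = dim X ∧
    kod (K (tot φ)) = kod (K X) ∧ nu (K (tot φ)) = nu (K X) ∧
    (K X - A ∈ psef X → K (tot φ) - H φ ∈ psef (tot φ))
  iit_zero : ∀ X φ, Iit (K X) φ → kod (K (gen φ)) = 0

/-- `G` is a very general fibre of the Iitaka fibration of `A`, or a very general fibre of a fibration
of such a fibre over a variety of maximal Albanese dimension. -/
def Fibrations.Over (T : Fibrations) {X : T.Pair} (A : T.Div X) (G : T.Pair) : Prop :=
  ∃ φ, T.Iit A φ ∧ (G = T.gen φ ∨ ∃ φ', T.alb φ' ∧ T.tot φ' = T.gen φ ∧ G = T.gen φ')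

/-- The relations between smooth varieties used below. -/
structure Maps extends Fibrations where
  /-- `Map X Y F`: there is a dominant rational map `X ⇢ Y` with connected fibres between smooth
  varieties, and `F` is a smooth model of a very general fibre. -/
  Map : Pair → Pair → Pair → Prop
  /-- `Cov X Z`: `X` is smooth, and `Z` is a smooth model of a very general member of a covering family
  of `X`: a family `U → T` with a dominant map `U → X` whose restriction to a general member is
  generically finite onto its image. -/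
  Cov : Pair → Pair → Prop
  /-- `Et X' X`: `X'` and `X` are smooth, and `X'` is birational to a finite étale covering of `X`. -/
  Et : Pair → Pair → Prop
  /-- `X` is smooth, and generically finite over its image in its Albanese variety. -/
  mad : Pair → Prop

/-- Elementary facts. -/
structure Facts extends Maps where
  map_dim : ∀ X Y F, Map X Y F → dim F + dim Y = dim X
  map_psef : ∀ X Y F, Map X Y F → K X ∈ psef X → K F ∈ psef F
  /-- A smooth variety has a pseudo-effective canonical class if and only if it is not uniruled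
  (Boucksom, Demailly, Paun, Peternell); rational curves through very general points of `X` lie in
  the fibres or cover `Y`. -/
  psef_map : ∀ X Y F, Map X Y F → K F ∈ psef F → K Y ∈ psef Y → K X ∈ psef X
  /-- `X ⇢ Y` becomes a morphism on a smooth model of `X`. -/
  map_fib : ∀ X Y F, Map X Y F → ∃ φ, base φ = dim Y ∧ kod (K (tot φ)) = kod (K X) ∧
    nu (K (tot φ)) = nu (K X) ∧ (K X ∈ psef X → K (tot φ) ∈ psef (tot φ)) ∧
    kod (K (gen φ)) = kod (K F) ∧ nu (K (gen φ)) = nu (K F) ∧ (mad Y → alb φ)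
  /-- `Z` is the very general fibre of `X ⇢ W`. -/
  map_comp : ∀ X Y F W E, Map X Y F → Map Y W E → ∃ Z, Map X W Z ∧ Map Z E F
  /-- If `Y` is a point, then `F` is birational to `X`. -/
  map_point : ∀ X Y F, Map X Y F → dim Y = 0 → Et F X
  et_refl : ∀ X, smooth X → Et X X
  et_trans : ∀ X'' X' X, Et X'' X' → Et X' X → Et X'' X
  et_inv : ∀ X' X, Et X' X → dim X' = dim X ∧ kod (K X') = kod (K X) ∧ nu (K X') = nu (K X) ∧
    (K X' ∈ psef X' ↔ K X ∈ psef X)
  /-- `X'` is the fibre product of a smooth model of `X` with the covering of `Y`. -/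
  et_map : ∀ X Y F Y', Map X Y F → Et Y' Y → ∃ X', Et X' X ∧ Map X' Y' F
  cov_trans : ∀ X Z V, Cov X Z → Cov Z V → Cov X V
  /-- If `Z` is uniruled then so is `X`. -/
  cov_psef : ∀ X Z, Cov X Z → K X ∈ psef X → K Z ∈ psef Z
  /-- The very general fibres of the Iitaka fibration cover `X`. -/
  iit_cov : ∀ X, smooth X → K X ∈ eff X → ∃ φ, Iit (K X) φ ∧ Cov X (gen φ)
  cov_smooth : ∀ X Z, Cov X Z → smooth Z
  cov_big : ∀ X Z, Cov X Z → kod (K X) = dim X → kod (K Z) = dim Z
  cov_mad : ∀ X Z, Cov X Z → mad X → mad Z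
  /-- Let `X ⇢ W` be a fibration with very general fibre `E`, and let `G` be a very general fibre of the
  Iitaka fibration `X ⇢ S` of `K_X`.  Let `W'` and `E'` be the base and a very general fibre of the Stein
  factorisation of `G ⇢ W`.  The varieties `W'` cover `W`.  Also `E'` is a very general fibre of the Stein
  factorisation of `E ⇢ S`.  This map is given by sections of `m(K_X)|_E = mK_E`, so it factors through
  the Iitaka fibration of `K_E`, and `E'` has a fibration `ψ` with the same very general fibre as this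
  Iitaka fibration.  The restriction to `E'` of the inverse image of an ample divisor under the
  Iitaka fibration of `K_E` is the divisor `H ψ`. -/
  iit_map : ∀ X W E, Map X W E → K X ∈ eff X → ∃ φ W' E' ψ χ, Iit (K X) φ ∧
    Map (gen φ) W' E' ∧ Cov W W' ∧ Iit (K E) χ ∧ kod (K (tot ψ)) = kod (K E') ∧
    nu (K (tot ψ)) = nu (K E') ∧ K (tot ψ) - H ψ ∈ psef (tot ψ) ∧
    kod (K (gen ψ)) = kod (K (gen χ)) ∧ nu (K (gen ψ)) = nu (K (gen χ))

/-- Further published theorems. -/
structure Theory extends Facts where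
  /-- Ueno. -/
  ueno : ∀ X, mad X → K X ∈ eff X
  /-- Varieties of maximal Albanese dimension have good minimal models (Fujino). -/
  fujino : ∀ X, mad X → kod (K X) = nu (K X)
  /-- If `κ(E) = κ_σ(E)` then `E` has a good minimal model (Gongyo, Lehmann), so a very general fibre of
  its Iitaka fibration has `κ_σ = 0`. -/
  lehmann : ∀ E χ, Iit (K E) χ → kod (K E) = nu (K E) → kod (K (gen χ)) = nu (K (gen χ))
  /-- Abundance for numerical dimension zero (Nakayama). -/
  nakayama : ∀ X, smooth X → nu (K X) = 0 → kod (K X) = 0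
  /-- Derived from theorems of Nakayama, Druel and Lehmann.  `Z` has a minimal model `Z'` with `K_{Z'}`
  numerically trivial (Nakayama; Druel).  Let `X ⇢ Y` be a fibration with `dim Y` maximal among those
  which contract the general complete intersection curves `C` of these `Z'`.  On every smooth model
  `K_X · C = 0`, since `0 = K_Z · C` is the sum of `K_X · C ≥ 0` and the degree on `C` of an effective
  divisor.  So `K_F · C = 0`, and `κ_σ(F) = 0` by the theorem on the `K_F`-trivial reduction map (Eckl;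
  Lehmann), since this map contracts the curves `C`. -/
  reduction : ∀ X Z, Cov X Z → K X ∈ psef X → nu (K Z) = 0 → ∃ Y F, Map X Y F ∧ smooth F ∧
    dim Z ≤ dim F ∧ nu (K F) = 0
  /-- Kawamata: if a very general fibre has a good minimal model (this holds if `κ = κ_σ`: Gongyo,
  Lehmann) and `κ(Y) ≥ 0`, then `κ(F) + κ(Y) ≤ κ(X)`. -/
  kawamata : ∀ X Y F, Map X Y F → K F ∈ psef F → kod (K F) = nu (K F) → K Y ∈ eff Y →
    kod (K F) + kod (K Y) ≤ kod (K X)
  /-- `Lin X F`: `X` is smooth, and `F` is a smooth model of a very general fibre of the Shafarevich map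
  of a linear representation `ρ : π₁(X) → GL_r(ℂ)`; this is the fibration `X ⇢ Sh_ρ(X)` which contracts
  the subvarieties through very general points whose fundamental group has finite image under
  `ρ`. -/
  Lin : Pair → Pair → Prop
  /-- Zuo; Campana, Claudon, Eyssidieux: for a finite étale covering `X'` of `X`, the Shafarevich
  variety `Y` has a fibration over a variety `W` of general type, with fibres birational to abelian
  varieties. -/
  cce : ∀ X F, Lin X F → ∃ X' F' Y W A, Et X' X ∧ Et F' F ∧ Map X' Y F' ∧ Map Y W A ∧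
    (smooth W ∧ kod (K W) = dim W) ∧ smooth A ∧ mad A

namespace Theory

variable (T : Theory)

/-- `X` is not uniruled and has dimension `≤ m`, or `κ(X) ≥ 1`, or `κ(X) ≥ 0` and `dim X ≤ m'`, or `X`
has maximal Albanese dimension. -/
def Light (m m' : ℕ) (X : T.Pair) : Prop :=
  (T.K X ∈ T.psef X ∧ T.dim X ≤ m) ∨ 1 ≤ T.kod (T.K X) ∨
    (0 ≤ T.kod (T.K X) ∧ T.dim X ≤ m') ∨ T.mad X

/-- The varieties from which the towers are built: `Light` holds for `X` and for the very general
members of all covering families of `X`.  Examples: `X` is not uniruled and has dimension `≤ m`;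
`κ(X) ≥ 0` and `dim X - κ(X) ≤ m'` (if `Z` is such a member then `dim Z - κ(Z) ≤ dim X - κ(X)`);
`X` has maximal Albanese dimension; `κ(X) ≥ 0` and a very general fibre of the Iitaka fibration of
`X` is a block. -/
def Block (m m' : ℕ) (X : T.Pair) : Prop :=
  T.smooth X ∧ T.Light m m' X ∧ ∀ Z, T.Cov X Z → T.Light m m' Z

/-- The smallest class of smooth varieties which contains the blocks and is closed under étale
quotients and extensions. -/
inductive Tower (m m' : ℕ) : T.Pair → Prop
  | block : ∀ X, T.Block m m' X → Tower m m' X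
  | quot : ∀ X' X, T.Et X' X → Tower m m' X' → Tower m m' X
  | ext : ∀ X Y F, T.Map X Y F → Tower m m' F → Tower m m' Y → Tower m m' X

/-- `X` is a tower, or has a fibration over a tower `W` with very general fibre `E` such that
`κ(E) = κ_σ(E)` (for instance, `E` is a tower), or `X` is covered by subvarieties `Z` with
`κ(Z) = κ_σ(Z)` and `κ(Z) + codim Z ≤ m`, or `≤ m'` and `κ(X) ≥ 0`, or the very general fibre `F` of the
Shafarevich map of a linear representation of `π₁(X)` satisfies `κ(F) = κ_σ(F)`. -/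
def Good (m m' : ℕ) (X : T.Pair) : Prop :=
  T.Tower m m' X ∨
  (∃ W E, T.Map X W E ∧ T.Tower m m' W ∧ T.kod (T.K E) = T.nu (T.K E)) ∨
  (∃ Z, T.Cov X Z ∧ T.kod (T.K Z) = T.nu (T.K Z) ∧
    (T.kod (T.K Z) + T.dim X ≤ m + T.dim Z ∨
      (T.kod (T.K Z) + T.dim X ≤ m' + T.dim Z ∧ 0 ≤ T.kod (T.K X)))) ∨
  ∃ F, T.Lin X F ∧ T.kod (T.K F) = T.nu (T.K F)

/-- Abundance for the klt pairs of dimension `≤ m` with `K` pseudo-effective, and for those of
dimension `≤ m'` with `κ ≥ 0`. -/
def Known (m m' : ℕ) : Prop :=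
  (∀ C, T.dim C ≤ m → T.K C ∈ T.psef C → T.kod (T.K C) = T.nu (T.K C)) ∧
    ∀ C, T.dim C ≤ m' → T.K C ∈ T.eff C → T.kod (T.K C) = T.nu (T.K C)

variable {T}

theorem eff_psef {X : T.Pair} {D : T.Div X} (h : D ∈ T.eff X) : D ∈ T.psef X := by
  have h1 := T.psef_add X 0 D (T.psef_zero X) h
  rwa [zero_add] at h1

theorem nu_nonneg {X : T.Pair} (h : T.K X ∈ T.psef X) : 0 ≤ T.nu (T.K X) := by
  have h1 := T.nu_mono X 0 (T.K X) (by rwa [sub_zero])
  have h2 := T.kod_le_nu X 0
  rw [T.kod_zero] at h2
  exact h2.trans h1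

theorem nonneg_of_le {a : WithBot ℕ} {d m : ℕ} (h : (d : WithBot ℕ) ≤ a + m) : 0 ≤ a := by
  induction a with
  | bot => simp at h
  | coe a => exact WithBot.coe_le_coe.2 (Nat.zero_le a)

theorem eq_zero_of_add {a b : WithBot ℕ} (ha : 0 ≤ a) (hb : 0 ≤ b) (h : a + b ≤ 0) :
    a = 0 ∧ b = 0 := by
  induction a with
  | bot => simp at ha
  | coe a =>
    induction b with
    | bot => simp at hb
    | coe b =>
      have h1 : ((a + b : ℕ) : WithBot ℕ) ≤ ((0 : ℕ) : WithBot ℕ) := h
      have h2 : a + b ≤ 0 := WithBot.coe_le_coe.1 h1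
      have h3 : a = 0 := by omega
      have h4 : b = 0 := by omega
      subst h3
      subst h4
      exact ⟨rfl, rfl⟩

/-- If a very general fibre satisfies abundance, and `K_X - H` is pseudo-effective, then `X` satisfies
abundance. -/
theorem of_fibre (φ : T.Fib) (hφ : T.K (T.tot φ) - T.H φ ∈ T.psef (T.tot φ))
    (h : T.kod (T.K (T.gen φ)) = T.nu (T.K (T.gen φ))) :
    T.kod (T.K (T.tot φ)) = T.nu (T.K (T.tot φ)) := by
  have h0 := T.psef_add _ _ _ hφ (T.H_eff φ)
  rw [sub_add_cancel] at h0
  obtain ⟨C, B, c, -, -, h1, h2, h3, h4, h5⟩ := T.canonical φ h0 h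
  have hc : 0 < 1 + c := by linarith
  have e : T.K C = (1 + c)⁻¹ • (T.K C + c • B) + (c * (1 + c)⁻¹) • (T.K C - B) := by
    rw [smul_add, smul_sub, smul_smul, mul_comm (1 + c)⁻¹ c]
    have h6 : (1 + c)⁻¹ • T.K C + (c * (1 + c)⁻¹) • T.K C = T.K C := by
      rw [← add_smul]
      have h7 : (1 + c)⁻¹ + c * (1 + c)⁻¹ = 1 := by
        field_simp
      rw [h7, one_smul]
    nth_rewrite 1 [← h6]
    abel
  have h8 := T.big C ((1 + c)⁻¹ • (T.K C + c • B)) ((c * (1 + c)⁻¹) • (T.K C - B))
    (by rw [T.kod_smul C _ _ (by positivity), h4])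
    (T.psef_smul C (c * (1 + c)⁻¹) _ (by positivity) (h5 hφ))
  rw [← e] at h8
  have h9 := T.kod_le_nu C (T.K C)
  have h10 := T.nu_le_dim C (T.K C)
  rw [← h1, ← h2, h8]
  rw [h8] at h9
  exact le_antisymm h9 h10

/-- If a very general fibre of the Iitaka fibration of `K_X` satisfies abundance then so does `X`. -/
theorem of_iitaka {X : T.Pair} {φ : T.Fib} (hφ : T.Iit (T.K X) φ)
    (h : T.K (T.gen φ) ∈ T.psef (T.gen φ) → T.kod (T.K (T.gen φ)) = T.nu (T.K (T.gen φ))) :
    T.kod (T.K X) = T.nu (T.K X) := by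
  obtain ⟨-, -, h1, h2, h3⟩ := T.iit X (T.K X) φ hφ
  have h4 : T.K (T.tot φ) - T.H φ ∈ T.psef (T.tot φ) := by
    refine h3 ?_
    rw [sub_self]
    exact T.psef_zero X
  have h5 := T.psef_add _ _ _ h4 (T.H_eff φ)
  rw [sub_add_cancel] at h5
  rw [← h1, ← h2]
  exact of_fibre φ h4 (h (T.psef_gen φ h5))

theorem light_psef {m m' : ℕ} {X : T.Pair} (h : T.Light m m' X) : T.K X ∈ T.psef X := by
  rcases h with ⟨h1, -⟩ | h1 | ⟨h1, -⟩ | h1
  · exact h1
  · exact eff_psef ((T.kod_nonneg _ _).1 (zero_le_one.trans h1))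
  · exact eff_psef ((T.kod_nonneg _ _).1 h1)
  · exact eff_psef (T.ueno X h1)

/-- Nonvanishing for `Light` varieties. -/
theorem light_eff {m m' : ℕ} (hab : T.Known m m') {X : T.Pair} (h : T.Light m m' X) :
    0 ≤ T.kod (T.K X) := by
  rcases h with ⟨h1, h2⟩ | h1 | ⟨h1, -⟩ | h1
  · rw [hab.1 X h2 h1]
    exact nu_nonneg h1
  · exact zero_le_one.trans h1
  · exact h1
  · exact (T.kod_nonneg _ _).2 (T.ueno X h1)

/-- The canonical class of a tower is pseudo-effective. -/
theorem tower_psef {m m' : ℕ} {X : T.Pair} (h : T.Tower m m' X) : T.K X ∈ T.psef X := by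
  induction h with
  | block X hX => exact light_psef hX.2.1
  | quot X' X he _ ih => exact (T.et_inv X' X he).2.2.2.1 ih
  | ext X Y F hm _ _ ihF ihY => exact T.psef_map X Y F hm ihF ihY

/-- After a finite étale covering, a tower is a block or has a fibration over a block of positive
dimension, whose very general fibre is a tower. -/
theorem tower_top {m m' : ℕ} {X : T.Pair} (h : T.Tower m m' X) : ∃ X', T.Et X' X ∧
    (T.Block m m' X' ∨
      ∃ W E, T.Map X' W E ∧ 0 < T.dim W ∧ T.Block m m' W ∧ T.Tower m m' E) := by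
  induction h with
  | block X hX => exact ⟨X, T.et_refl X hX.1, Or.inl hX⟩
  | quot X' X he _ ih =>
    obtain ⟨X'', h1, h2⟩ := ih
    exact ⟨X'', T.et_trans X'' X' X h1 he, h2⟩
  | ext X Y F hm hF hY ihF ihY =>
    by_cases h0 : T.dim Y = 0
    · obtain ⟨F', h1, h2⟩ := ihF
      exact ⟨F', T.et_trans F' F X h1 (T.map_point X Y F hm h0), h2⟩
    · obtain ⟨Y', h1, h2⟩ := ihY
      obtain ⟨X', h3, h4⟩ := T.et_map X Y F Y' hm h1
      refine ⟨X', h3, Or.inr ?_⟩
      rcases h2 with h2 | ⟨W, E, h5, h6, h7, h8⟩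
      · refine ⟨Y', F, h4, ?_, h2, hF⟩
        rw [(T.et_inv Y' Y h1).1]
        omega
      · obtain ⟨Z, h9, h10⟩ := T.map_comp X' Y' F W E h4 h5
        exact ⟨W, Z, h9, h6, h7, Tower.ext Z E F h10 hF h8⟩

/-- If `κ = κ_σ` for a very general fibre `F` of `X ⇢ Y`, and `κ(F) + dim Y ≤ m`, or `≤ m'` and
`κ(X) ≥ 0`, then `X` satisfies abundance. -/
theorem of_small {m m' : ℕ} (hab : T.Known m m') {X Y F : T.Pair} (hm : T.Map X Y F)
    (hX : T.K X ∈ T.psef X) (hF : T.kod (T.K F) = T.nu (T.K F))
    (h : T.kod (T.K F) + T.dim Y ≤ m ∨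
      (T.kod (T.K F) + T.dim Y ≤ m' ∧ 0 ≤ T.kod (T.K X))) :
    T.kod (T.K X) = T.nu (T.K X) := by
  obtain ⟨φ, h1, h2, h3, h4, h5, h6, -⟩ := T.map_fib X Y F hm
  obtain ⟨C, -, -, h7, h8, h9, h10, -⟩ := T.canonical φ (h4 hX) (by rw [h5, h6, hF])
  rw [h5, h1] at h8
  rw [← h2, ← h3, ← h9, ← h10]
  rw [← h8] at h
  rcases h with h | ⟨h, h0⟩
  · exact hab.1 C (by exact_mod_cast h) h7
  · refine hab.2 C (by exact_mod_cast h) ((T.kod_nonneg _ _).1 ?_)
    rw [h9, h2]
    exact h0

/-- Blocks satisfy abundance. -/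
theorem block_abundant {m m' : ℕ} (hab : T.Known m m') {X : T.Pair} (h : T.Block m m' X) :
    T.kod (T.K X) = T.nu (T.K X) := by
  obtain ⟨φ, hφ, hc⟩ := T.iit_cov X h.1 ((T.kod_nonneg _ _).1 (light_eff hab h.2.1))
  refine of_iitaka hφ fun _ => ?_
  have h0 := T.iit_zero X φ hφ
  rcases h.2.2 _ hc with ⟨h1, h2⟩ | h1 | ⟨h1, h2⟩ | h1
  · exact hab.1 _ h2 h1
  · rw [h0] at h1
    exact absurd h1 (by simp)
  · exact hab.2 _ h2 ((T.kod_nonneg _ _).1 h1)
  · exact T.fujino _ h1

/-- A fibre space over a block satisfies abundance if its very general fibre does. -/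
theorem over_block {m m' : ℕ} (hab : T.Known m m') {X W E : T.Pair} (hm : T.Map X W E)
    (hW : T.Block m m' W) (hpE : T.K E ∈ T.psef E) (hE : T.kod (T.K E) = T.nu (T.K E)) :
    T.kod (T.K X) = T.nu (T.K X) := by
  have kE : 0 ≤ T.kod (T.K E) := by
    rw [hE]
    exact nu_nonneg hpE
  have kW := light_eff hab hW.2.1
  have kX := (add_nonneg kE kW).trans
    (T.kawamata X W E hm hpE hE ((T.kod_nonneg _ _).1 kW))
  obtain ⟨φ, W', E', ψ, χ, h1, h2, h3, h4, h5, h6, h7, h8, h9⟩ :=
    T.iit_map X W E hm ((T.kod_nonneg _ _).1 kX)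
  refine of_iitaka h1 fun hG => ?_
  have hE' : T.kod (T.K E') = T.nu (T.K E') := by
    rw [← h5, ← h6]
    exact of_fibre ψ h7 (by rw [h8, h9]; exact T.lehmann E χ h4 hE)
  have hpE' := T.map_psef _ _ _ h2 hG
  have hW' := hW.2.2 W' h3
  have kE' : 0 ≤ T.kod (T.K E') := by
    rw [hE']
    exact nu_nonneg hpE'
  have kW' := light_eff hab hW'
  have hk := T.kawamata _ W' E' h2 hpE' hE' ((T.kod_nonneg _ _).1 kW')
  have hG0 := T.iit_zero X φ h1
  rw [hG0] at hk
  obtain ⟨h10, h11⟩ := eq_zero_of_add kE' kW' hk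
  rcases hW' with ⟨-, h12⟩ | h12 | ⟨-, h12⟩ | h12
  · refine of_small hab h2 hG hE' (Or.inl ?_)
    rw [h10, zero_add]
    exact_mod_cast h12
  · rw [h11] at h12
    exact absurd h12 (by simp)
  · refine of_small hab h2 hG hE' (Or.inr ⟨?_, by rw [hG0]⟩)
    rw [h10, zero_add]
    exact_mod_cast h12
  · obtain ⟨θ, -, g2, g3, g4, g5, g6, g7⟩ := T.map_fib _ W' E' h2
    rw [← g2, ← g3]
    exact T.hu θ (g7 h12) (g4 hG) (by rw [g5, g6, hE'])

/-- A fibre space over a tower satisfies abundance if its very general fibre does. -/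
theorem over_tower {m m' : ℕ} (hab : T.Known m m') {X W E : T.Pair} (hm : T.Map X W E)
    (hW : T.Tower m m' W) (hpE : T.K E ∈ T.psef E) (hE : T.kod (T.K E) = T.nu (T.K E)) :
    T.kod (T.K X) = T.nu (T.K X) := by
  have main : ∀ d : ℕ, ∀ X W, T.dim X = d → T.Map X W E → T.Tower m m' W →
      T.kod (T.K X) = T.nu (T.K X) := by
    intro d
    induction d using Nat.strong_induction_on with
    | _ d ih =>
      intro X W hd hm hW
      obtain ⟨W', he, h⟩ := tower_top hW
      obtain ⟨X', hX', hm'⟩ := T.et_map X W E W' hm he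
      obtain ⟨e1, e2, e3, -⟩ := T.et_inv X' X hX'
      rw [← e2, ← e3]
      rcases h with h | ⟨V, D, h1, h2, h3, h4⟩
      · exact over_block hab hm' h hpE hE
      · obtain ⟨Z, h5, h6⟩ := T.map_comp X' W' E V D hm' h1
        have h7 := T.map_dim X' V Z h5
        have hZ := ih (T.dim Z) (by omega) Z D rfl h6 h4
        exact over_block hab h5 h3 (T.psef_map Z D E h6 hpE (tower_psef h4)) hZ
  exact main _ X W rfl hm hW

/-- Towers satisfy abundance. -/
theorem tower_abundant {m m' : ℕ} (hab : T.Known m m') {X : T.Pair} (h : T.Tower m m' X) :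
    T.kod (T.K X) = T.nu (T.K X) := by
  induction h with
  | block X hX => exact block_abundant hab hX
  | quot X' X he _ ih =>
    obtain ⟨-, h1, h2, -⟩ := T.et_inv X' X he
    rw [← h1, ← h2]
    exact ih
  | ext X Y F hm hF hY ihF _ => exact over_tower hab hm hY (tower_psef hF) ihF

/-- Abundance for varieties which are covered by subvarieties `Z` with small `κ(Z) + codim Z`. -/
theorem covered_abundant {m m' : ℕ} (hab : T.Known m m') {X Z : T.Pair}
    (hX : T.K X ∈ T.psef X) (hc : T.Cov X Z) (hZ : T.kod (T.K Z) = T.nu (T.K Z))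
    (h : T.kod (T.K Z) + T.dim X ≤ m + T.dim Z ∨
      (T.kod (T.K Z) + T.dim X ≤ m' + T.dim Z ∧ 0 ≤ T.kod (T.K X))) :
    T.kod (T.K X) = T.nu (T.K X) := by
  have kZ : 0 ≤ T.kod (T.K Z) := by
    rw [hZ]
    exact nu_nonneg (T.cov_psef X Z hc hX)
  obtain ⟨φ, h1, h2⟩ := T.iit_cov Z (T.cov_smooth X Z hc) ((T.kod_nonneg _ _).1 kZ)
  obtain ⟨h3, h4, -, -, -⟩ := T.iit Z (T.K Z) φ h1
  have h5 := T.dim_gen φ
  have h6 : T.nu (T.K (T.gen φ)) = 0 := by
    rw [← T.lehmann Z φ h1 hZ, T.iit_zero Z φ h1]
  obtain ⟨Y, F, h7, h8, h9, h10⟩ := T.reduction X _ (T.cov_trans X Z _ hc h2) hX h6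
  have h11 := T.nakayama F h8 h10
  have h12 := T.map_dim X Y F h7
  rw [h3] at h
  refine of_small hab h7 hX (by rw [h10, h11]) ?_
  rw [h11, zero_add]
  rcases h with h | ⟨h, h0⟩
  · have h' : T.base φ + T.dim X ≤ m + T.dim Z := by exact_mod_cast h
    refine Or.inl ?_
    have h13 : T.dim Y ≤ m := by omega
    exact_mod_cast h13
  · have h' : T.base φ + T.dim X ≤ m' + T.dim Z := by exact_mod_cast h
    refine Or.inr ⟨?_, h0⟩
    have h13 : T.dim Y ≤ m' := by omega
    exact_mod_cast h13

/-- Varieties of general type are blocks. -/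
theorem light_of_big {m m' : ℕ} {X : T.Pair} (h : T.kod (T.K X) = T.dim X) :
    T.Light m m' X := by
  by_cases h0 : T.dim X = 0
  · refine Or.inl ⟨eff_psef ((T.kod_nonneg _ _).1 ?_), by omega⟩
    rw [h]
    exact_mod_cast Nat.zero_le _
  · refine Or.inr (Or.inl ?_)
    rw [h]
    exact_mod_cast Nat.one_le_iff_ne_zero.2 h0

/-- Abundance for the varieties as in `Good`. -/
theorem good_abundant {m m' : ℕ} (hab : T.Known m m') {X : T.Pair}
    (hX : T.K X ∈ T.psef X) (h : T.Good m m' X) : T.kod (T.K X) = T.nu (T.K X) := by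
  rcases h with h | ⟨W, E, h1, h2, h3⟩ | ⟨Z, h1, h2, h3⟩ | ⟨F, h1, h2⟩
  · exact tower_abundant hab h
  · exact over_tower hab h1 h2 (T.map_psef X W E h1 hX) h3
  · exact covered_abundant hab hX h1 h2 h3
  · obtain ⟨X', F', Y, W, A, g1, g2, g3, g4, g5, g6⟩ := T.cce X F h1
    obtain ⟨-, e1, e2, e3⟩ := T.et_inv X' X g1
    obtain ⟨-, e4, e5, -⟩ := T.et_inv F' F g2
    rw [← e1, ← e2]
    refine over_tower hab g3 ?_ (T.map_psef X' Y F' g3 (e3.2 hX)) (by rw [e4, e5, h2])
    refine Tower.ext Y W A g4 (Tower.block A ⟨g6.1, Or.inr (Or.inr (Or.inr g6.2)),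
      fun Z hZ => Or.inr (Or.inr (Or.inr (T.cov_mad A Z hZ g6.2)))⟩)
      (Tower.block W ⟨g5.1, light_of_big g5.2, fun Z hZ => light_of_big (T.cov_big W Z hZ g5.2)⟩)

end Theory

/-- Let abundance, in the form `κ = κ_σ`, hold for the klt pairs of dimension `4, ..., m` with
pseudo-effective log canonical class, and for the klt pairs of dimension `4, ..., m'` with `κ ≥ 0`.
Let `X` be smooth and `K_X ~ A + B` with `A` effective and `B` pseudo-effective.  Then
`κ(A) ≤ κ(X) = κ_σ(X)` if `X` is as in `Theory.Good`, or if a very general fibre `G` of the Iitaka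
fibration of `A`, or of a fibration of such a fibre over a variety of maximal Albanese dimension,
is as in `Theory.Good`, for `max(3, m)` and `max(3, m')`. -/
theorem result (T : Theory) (m m' : ℕ)
    (h : ∀ C, 4 ≤ T.dim C → T.dim C ≤ m → T.K C ∈ T.psef C → T.kod (T.K C) = T.nu (T.K C))
    (h' : ∀ C, 4 ≤ T.dim C → T.dim C ≤ m' → T.K C ∈ T.eff C → T.kod (T.K C) = T.nu (T.K C))
    (X : T.Pair) (_ : T.smooth X) (A B : T.Div X) (hA : A ∈ T.eff X) (hB : B ∈ T.psef X)
    (hK : T.K X = A + B)
    (hF : T.Good (max 3 m) (max 3 m') X ∨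
      ∃ G, T.Over A G ∧ T.Good (max 3 m) (max 3 m') G) :
    T.kod A ≤ T.kod (T.K X) ∧ T.kod (T.K X) = T.nu (T.K X) := by
  have hab : T.Known (max 3 m) (max 3 m') := by
    constructor
    · intro C hC hp
      by_cases h3 : T.dim C ≤ 3
      · exact T.abundance_three C h3 hp
      · exact h C (by omega) (by omega) hp
    · intro C hC he
      by_cases h3 : T.dim C ≤ 3
      · exact T.abundance_three C h3 (Theory.eff_psef he)
      · exact h' C (by omega) (by omega) he
  have hB' : T.K X - A ∈ T.psef X := by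
    rw [hK, add_sub_cancel_left]
    exact hB
  have main : T.kod (T.K X) = T.nu (T.K X) := by
    rcases hF with hF | ⟨G, ⟨φ, hφ, hG⟩, hc⟩
    · refine Theory.good_abundant hab ?_ hF
      rw [hK, add_comm]
      exact T.psef_add X B A hB hA
    · obtain ⟨-, -, h1, h2, h3⟩ := T.iit X A φ hφ
      have h4 := T.psef_add _ _ _ (h3 hB') (T.H_eff φ)
      rw [sub_add_cancel] at h4
      rw [← h1, ← h2]
      refine Theory.of_fibre φ (h3 hB') ?_
      rcases hG with rfl | ⟨φ', ha, hφ', rfl⟩
      · exact Theory.good_abundant hab (T.psef_gen φ h4) hc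
      · have hp' : T.K (T.tot φ') ∈ T.psef (T.tot φ') := by
          rw [hφ']
          exact T.psef_gen φ h4
        have h6 := T.hu φ' ha hp' (Theory.good_abundant hab (T.psef_gen φ' hp') hc)
        rwa [hφ'] at h6
  refine ⟨?_, main⟩
  rw [main]
  exact (T.kod_le_nu X A).trans (T.nu_mono X A (T.K X) hB')

end Pool.TWR.Old
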