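import Pool.Agent.H70.TWR.Defs
import Pool.Agent.H70.TWR.Old

/-!
From the flat structure of `Defs` to those of `Old`.
-/

noncomputable section

namespace Pool.TWR

def Theory.toOld (T : Theory) : Old.Theory where
  Pair := T.Pair
  smooth := T.smooth
  dim := T.dim
  Div := fun X => T.Div X
  grp := fun X => inferInstanceAs (AddCommGroup (T.Div X))
  mod := fun X => inferInstanceAs (Module ℚ (T.Div X))
  K := T.K
  eff := fun X => {D | T.eff X D}
  psef := fun X => {D | T.psef X D}
  kod := fun {X} D => T.kod X D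
  nu := fun {X} D => T.nu X D
  kod_nonneg := T.kod_nonneg
  kod_zero := T.kod_zero
  kod_smul := T.kod_smul
  kod_le_nu := T.kod_le_nu
  nu_le_dim := T.nu_le_dim
  nu_mono := T.nu_mono
  psef_zero := T.psef_zero
  psef_smul := T.psef_smul
  psef_add := T.psef_add
  big := T.big
  abundance_three := T.abundance_three
  Fib := T.Fib
  tot := T.tot
  gen := T.gen
  base := T.base
  H := T.H
  H_eff := T.H_eff
  alb := T.alb
  dim_gen := T.dim_gen
  psef_gen := T.psef_gen
  eff_gen := T.eff_gen
  canonical := T.canonical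
  hu := T.hu
  Iit := fun {X} A F => T.Iit X A F
  iit_ex := T.iit_ex
  iit := T.iit
  iit_zero := T.iit_zero
  Map := T.Map
  Cov := T.Cov
  Et := T.Et
  mad := T.mad
  map_dim := T.map_dim
  map_psef := T.map_psef
  psef_map := T.psef_map
  map_fib := T.map_fib
  map_comp := T.map_comp
  map_point := T.map_point
  et_refl := T.et_refl
  et_trans := T.et_trans
  et_inv := T.et_inv
  et_map := T.et_map
  cov_trans := T.cov_trans
  cov_psef := T.cov_psef
  iit_cov := T.iit_cov
  cov_smooth := T.cov_smooth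
  cov_big := T.cov_big
  cov_mad := T.cov_mad
  iit_map := T.iit_map
  ueno := T.ueno
  fujino := T.fujino
  lehmann := T.lehmann
  nakayama := T.nakayama
  reduction := T.reduction
  kawamata := T.kawamata
  Lin := T.Lin
  cce := T.cce

theorem Theory.tower {T : Theory} {m m' : ℕ} {X : T.Pair} (h : T.Tower m m' X) :
    Old.Theory.Tower T.toOld m m' X := by
  induction h with
  | block X hX => exact Old.Theory.Tower.block (T := T.toOld) (m := m) (m' := m') X hX
  | quot X' X he _ ih => exact Old.Theory.Tower.quot (T := T.toOld) (m := m) (m' := m') X' X he ih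
  | ext X Y F hm _ _ ihF ihY =>
    exact Old.Theory.Tower.ext (T := T.toOld) (m := m) (m' := m') X Y F hm ihF ihY

theorem Theory.good {T : Theory} {m m' : ℕ} {X : T.Pair} (h : T.Good m m' X) :
    Old.Theory.Good T.toOld m m' X := by
  rcases h with h | ⟨W, E, h1, h2, h3⟩ | h | h
  · exact Or.inl (Theory.tower h)
  · exact Or.inr (Or.inl ⟨W, E, h1, Theory.tower h2, h3⟩)
  · exact Or.inr (Or.inr (Or.inl h))
  · exact Or.inr (Or.inr (Or.inr h))

theorem main (T : Theory) (m m' : ℕ)
    (h : ∀ C, 4 ≤ T.dim C → T.dim C ≤ m → T.psef C (T.K C) → T.kod C (T.K C) = T.nu C (T.K C))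
    (h' : ∀ C, 4 ≤ T.dim C → T.dim C ≤ m' → T.eff C (T.K C) → T.kod C (T.K C) = T.nu C (T.K C))
    (X : T.Pair) (hX : T.smooth X) (A B : T.Div X) (hA : T.eff X A) (hB : T.psef X B)
    (hK : T.K X = A + B)
    (hF : T.Good (max 3 m) (max 3 m') X ∨
      ∃ G, T.Over X A G ∧ T.Good (max 3 m) (max 3 m') G) :
    T.kod X A ≤ T.kod X (T.K X) ∧ T.kod X (T.K X) = T.nu X (T.K X) := by
  refine Old.result T.toOld m m' h h' X hX A B hA hB hK ?_
  rcases hF with hF | ⟨G, hG, hF⟩
  · exact Or.inl (Theory.good hF)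
  · exact Or.inr ⟨G, hG, Theory.good hF⟩

end Pool.TWR
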