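import Mathlib

/-!
Definitions for the hand-in Towers (problem MP_370cf3_ag): one flat structure `Theory`.  The meaning of
the fields, and the sources of the published theorems, are in the docstrings of `Old.lean`.
-/

noncomputable section

namespace Pool.TWR

/-- Projective klt pairs, fibrations, and facts and published theorems on them. -/
structure Theory where
  Pair : Type
  smooth : Pair → Prop
  dim : Pair → ℕ
  Div : Pair → ModuleCat.{0} ℚ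
  K : ∀ X, Div X
  eff : ∀ X, Div X → Prop
  psef : ∀ X, Div X → Prop
  kod : ∀ X, Div X → WithBot ℕ
  nu : ∀ X, Div X → WithBot ℕ
  kod_nonneg : ∀ X D, 0 ≤ kod X D ↔ eff X D
  kod_zero : ∀ X, kod X 0 = 0
  kod_smul : ∀ X (c : ℚ) D, 0 < c → kod X (c • D) = kod X D
  kod_le_nu : ∀ X D, kod X D ≤ nu X D
  nu_le_dim : ∀ X D, nu X D ≤ dim X
  nu_mono : ∀ X D D', psef X (D' - D) → nu X D ≤ nu X D'
  psef_zero : ∀ X, psef X 0
  psef_smul : ∀ X (c : ℚ) D, 0 < c → psef X D → psef X (c • D)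
  psef_add : ∀ X D D', psef X D → eff X D' → psef X (D + D')
  big : ∀ X D D', kod X D = dim X → psef X D' → kod X (D + D') = dim X
  abundance_three : ∀ X, dim X ≤ 3 → psef X (K X) → kod X (K X) = nu X (K X)
  Fib : Type
  tot : Fib → Pair
  gen : Fib → Pair
  base : Fib → ℕ
  H : ∀ φ, Div (tot φ)
  H_eff : ∀ φ, eff (tot φ) (H φ)
  alb : Fib → Prop
  dim_gen : ∀ φ, dim (gen φ) + base φ = dim (tot φ)
  psef_gen : ∀ φ, psef (tot φ) (K (tot φ)) → psef (gen φ) (K (gen φ))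
  eff_gen : ∀ φ, eff (tot φ) (K (tot φ)) → eff (gen φ) (K (gen φ))
  canonical : ∀ φ, psef (tot φ) (K (tot φ)) → kod (gen φ) (K (gen φ)) = nu (gen φ) (K (gen φ)) →
    ∃ (C : Pair) (B : Div C) (c : ℚ), psef C (K C) ∧
      (dim C : WithBot ℕ) = kod (gen φ) (K (gen φ)) + base φ ∧
      kod C (K C) = kod (tot φ) (K (tot φ)) ∧ nu C (K C) = nu (tot φ) (K (tot φ)) ∧ 0 < c ∧
      kod C (K C + c • B) = dim C ∧ (psef (tot φ) (K (tot φ) - H φ) → psef C (K C - B))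
  hu : ∀ φ, alb φ → psef (tot φ) (K (tot φ)) → kod (gen φ) (K (gen φ)) = nu (gen φ) (K (gen φ)) →
    kod (tot φ) (K (tot φ)) = nu (tot φ) (K (tot φ))
  Iit : ∀ X, Div X → Fib → Prop
  iit_ex : ∀ X A, smooth X → eff X A → ∃ φ, Iit X A φ
  iit : ∀ X A φ, Iit X A φ → kod X A = base φ ∧ dim (tot φ) = dim X ∧
    kod (tot φ) (K (tot φ)) = kod X (K X) ∧ nu (tot φ) (K (tot φ)) = nu X (K X) ∧
    (psef X (K X - A) → psef (tot φ) (K (tot φ) - H φ))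
  iit_zero : ∀ X φ, Iit X (K X) φ → kod (gen φ) (K (gen φ)) = 0
  Map : Pair → Pair → Pair → Prop
  Cov : Pair → Pair → Prop
  Et : Pair → Pair → Prop
  mad : Pair → Prop
  map_dim : ∀ X Y F, Map X Y F → dim F + dim Y = dim X
  map_psef : ∀ X Y F, Map X Y F → psef X (K X) → psef F (K F)
  psef_map : ∀ X Y F, Map X Y F → psef F (K F) → psef Y (K Y) → psef X (K X)
  map_fib : ∀ X Y F, Map X Y F → ∃ φ, base φ = dim Y ∧
    kod (tot φ) (K (tot φ)) = kod X (K X) ∧ nu (tot φ) (K (tot φ)) = nu X (K X) ∧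
    (psef X (K X) → psef (tot φ) (K (tot φ))) ∧ kod (gen φ) (K (gen φ)) = kod F (K F) ∧
    nu (gen φ) (K (gen φ)) = nu F (K F) ∧ (mad Y → alb φ)
  map_comp : ∀ X Y F W E, Map X Y F → Map Y W E → ∃ Z, Map X W Z ∧ Map Z E F
  map_point : ∀ X Y F, Map X Y F → dim Y = 0 → Et F X
  et_refl : ∀ X, smooth X → Et X X
  et_trans : ∀ X'' X' X, Et X'' X' → Et X' X → Et X'' X
  et_inv : ∀ X' X, Et X' X → dim X' = dim X ∧ kod X' (K X') = kod X (K X) ∧
    nu X' (K X') = nu X (K X) ∧ (psef X' (K X') ↔ psef X (K X))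
  et_map : ∀ X Y F Y', Map X Y F → Et Y' Y → ∃ X', Et X' X ∧ Map X' Y' F
  cov_trans : ∀ X Z V, Cov X Z → Cov Z V → Cov X V
  cov_psef : ∀ X Z, Cov X Z → psef X (K X) → psef Z (K Z)
  iit_cov : ∀ X, smooth X → eff X (K X) → ∃ φ, Iit X (K X) φ ∧ Cov X (gen φ)
  cov_smooth : ∀ X Z, Cov X Z → smooth Z
  cov_big : ∀ X Z, Cov X Z → kod X (K X) = dim X → kod Z (K Z) = dim Z
  cov_mad : ∀ X Z, Cov X Z → mad X → mad Z
  iit_map : ∀ X W E, Map X W E → eff X (K X) → ∃ φ W' E' ψ χ, Iit X (K X) φ ∧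
    Map (gen φ) W' E' ∧ Cov W W' ∧ Iit E (K E) χ ∧ kod (tot ψ) (K (tot ψ)) = kod E' (K E') ∧
    nu (tot ψ) (K (tot ψ)) = nu E' (K E') ∧ psef (tot ψ) (K (tot ψ) - H ψ) ∧
    kod (gen ψ) (K (gen ψ)) = kod (gen χ) (K (gen χ)) ∧
    nu (gen ψ) (K (gen ψ)) = nu (gen χ) (K (gen χ))
  ueno : ∀ X, mad X → eff X (K X)
  fujino : ∀ X, mad X → kod X (K X) = nu X (K X)
  lehmann : ∀ E χ, Iit E (K E) χ → kod E (K E) = nu E (K E) →
    kod (gen χ) (K (gen χ)) = nu (gen χ) (K (gen χ))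
  nakayama : ∀ X, smooth X → nu X (K X) = 0 → kod X (K X) = 0
  reduction : ∀ X Z, Cov X Z → psef X (K X) → nu Z (K Z) = 0 → ∃ Y F, Map X Y F ∧ smooth F ∧
    dim Z ≤ dim F ∧ nu F (K F) = 0
  kawamata : ∀ X Y F, Map X Y F → psef F (K F) → kod F (K F) = nu F (K F) → eff Y (K Y) →
    kod F (K F) + kod Y (K Y) ≤ kod X (K X)
  Lin : Pair → Pair → Prop
  cce : ∀ X F, Lin X F → ∃ X' F' Y W A, Et X' X ∧ Et F' F ∧ Map X' Y F' ∧ Map Y W A ∧
    (smooth W ∧ kod W (K W) = dim W) ∧ smooth A ∧ mad A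

namespace Theory

variable (T : Theory)

/-- `G` is a very general fibre of the Iitaka fibration of `A`, or a very general fibre of a fibration
of such a fibre over a variety of maximal Albanese dimension. -/
def Over (X : T.Pair) (A : T.Div X) (G : T.Pair) : Prop :=
  ∃ φ, T.Iit X A φ ∧ (G = T.gen φ ∨ ∃ φ', T.alb φ' ∧ T.tot φ' = T.gen φ ∧ G = T.gen φ')

def Light (m m' : ℕ) (X : T.Pair) : Prop :=
  (T.psef X (T.K X) ∧ T.dim X ≤ m) ∨ 1 ≤ T.kod X (T.K X) ∨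
    (0 ≤ T.kod X (T.K X) ∧ T.dim X ≤ m') ∨ T.mad X

def Block (m m' : ℕ) (X : T.Pair) : Prop :=
  T.smooth X ∧ T.Light m m' X ∧ ∀ Z, T.Cov X Z → T.Light m m' Z

inductive Tower (m m' : ℕ) : T.Pair → Prop
  | block : ∀ X, T.Block m m' X → Tower m m' X
  | quot : ∀ X' X, T.Et X' X → Tower m m' X' → Tower m m' X
  | ext : ∀ X Y F, T.Map X Y F → Tower m m' F → Tower m m' Y → Tower m m' X

def Good (m m' : ℕ) (X : T.Pair) : Prop :=
  T.Tower m m' X ∨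
  (∃ W E, T.Map X W E ∧ T.Tower m m' W ∧ T.kod E (T.K E) = T.nu E (T.K E)) ∨
  (∃ Z, T.Cov X Z ∧ T.kod Z (T.K Z) = T.nu Z (T.K Z) ∧
    (T.kod Z (T.K Z) + T.dim X ≤ m + T.dim Z ∨
      (T.kod Z (T.K Z) + T.dim X ≤ m' + T.dim Z ∧ 0 ≤ T.kod X (T.K X)))) ∨
  ∃ F, T.Lin X F ∧ T.kod F (T.K F) = T.nu F (T.K F)

end Theory

end Pool.TWR
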