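import Pool.Agent.H70.TWR.Conv

namespace Pool.TWR.Draft

theorem result (T : Theory) (m m' : ℕ)
    (h : ∀ C, 4 ≤ T.dim C → T.dim C ≤ m → T.psef C (T.K C) → T.kod C (T.K C) = T.nu C (T.K C))
    (h' : ∀ C, 4 ≤ T.dim C → T.dim C ≤ m' → T.eff C (T.K C) → T.kod C (T.K C) = T.nu C (T.K C))
    (X : T.Pair) (hX : T.smooth X) (A B : T.Div X) (hA : T.eff X A) (hB : T.psef X B)
    (hK : T.K X = A + B)
    (hF : T.Good (max 3 m) (max 3 m') X ∨
      ∃ G, T.Over X A G ∧ T.Good (max 3 m) (max 3 m') G) :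
    T.kod X A ≤ T.kod X (T.K X) ∧ T.kod X (T.K X) = T.nu X (T.K X) :=
  main T m m' h h' X hX A B hA hB hK hF

end Pool.TWR.Draft
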